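import Pool.Agent.Y577.EV.Stm
import Mathlib

/-!
# A cyclic permutation of the non-zero vectors of `(ZMod 2) ^ c`
-/

set_option autoImplicit false

namespace Pool.Agent.Y350.EV

open Pool.Agent.Y577.EV

theorem t : S_gen := by
  intro c
  by_cases hc : c = 0
  · subst hc
    exact ⟨AddEquiv.refl _, fun x y hx _ => absurd (Subsingleton.elim x 0) hx⟩
  · have hp : Fact (Nat.Prime 2) := ⟨Nat.prime_two⟩
    have hfr : Module.finrank (ZMod 2) (GaloisField 2 c) =
        Module.finrank (ZMod 2) (Fin c → ZMod 2) := by
      rw [GaloisField.finrank 2 hc, Module.finrank_fin_fun]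
    let e : GaloisField 2 c ≃ₗ[ZMod 2] (Fin c → ZMod 2) := LinearEquiv.ofFinrankEq _ _ hfr
    obtain ⟨z, hz⟩ := IsCyclic.exists_generator (α := (GaloisField 2 c)ˣ)
    let mz : GaloisField 2 c ≃+ GaloisField 2 c :=
      { toFun := fun a => z * a
        invFun := fun a => (z⁻¹ : (GaloisField 2 c)ˣ) * a
        left_inv := fun a => by
          change ((z⁻¹ : (GaloisField 2 c)ˣ) : GaloisField 2 c) * (z * a) = a
          rw [← mul_assoc, Units.inv_mul, one_mul]
        right_inv := fun a => by
          change (z : GaloisField 2 c) * ((z⁻¹ : (GaloisField 2 c)ˣ) * a) = a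
          rw [← mul_assoc, Units.mul_inv, one_mul]
        map_add' := fun a b => mul_add _ _ _ }
    let g : (Fin c → ZMod 2) ≃+ (Fin c → ZMod 2) :=
      (e.symm.toAddEquiv.trans mz).trans e.toAddEquiv
    have hg : ∀ x, g x = e (z * e.symm x) := fun x => rfl
    have hgm : ∀ (m : ℕ) (x : Fin c → ZMod 2),
        (⇑g)^[m] x = e ((z : GaloisField 2 c) ^ m * e.symm x) := by
      intro m x
      induction m with
      | zero => rw [Function.iterate_zero_apply, pow_zero, one_mul, LinearEquiv.apply_symm_apply]
      | succ m ih =>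
        rw [Function.iterate_succ_apply', ih, hg, LinearEquiv.symm_apply_apply, pow_succ',
          mul_assoc]
    refine ⟨g, fun x y hx hy => ?_⟩
    have hx' : e.symm x ≠ 0 := fun h => hx (by
      have := congrArg e h
      rwa [LinearEquiv.apply_symm_apply, map_zero] at this)
    have hy' : e.symm y ≠ 0 := fun h => hy (by
      have := congrArg e h
      rwa [LinearEquiv.apply_symm_apply, map_zero] at this)
    obtain ⟨m, hm⟩ := mem_powers_iff_mem_zpowers.2 (hz (Units.mk0 _ hy' / Units.mk0 _ hx'))
    refine ⟨m, ?_⟩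
    have h1 : (z : GaloisField 2 c) ^ m = e.symm y / e.symm x := by
      have h2 := congrArg (fun u : (GaloisField 2 c)ˣ => (u : GaloisField 2 c)) hm
      simp only [Units.val_pow_eq_pow_val, Units.val_div_eq_div_val, Units.val_mk0] at h2
      exact h2
    rw [hgm, h1, div_mul_cancel₀ _ hx', LinearEquiv.apply_symm_apply]

end Pool.Agent.Y350.EV
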